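import Mathlib

/-!
Auxiliary facts on one-dimensional Gaussian sums with parity characters, used for the
counterexample to third-moment identifiability of complex discrete Gaussians.
-/

open scoped BigOperators

namespace Pool.Agent.Helper80DiscGauss

noncomputable section

/-- the parity character `(-1)^n` on the integers -/
def chi (n : ℤ) : ℝ := (-1 : ℝ) ^ n

/-- `exp (-π n² / 2)` -/
def q (n : ℤ) : ℝ := Real.exp (-(Real.pi / 2) * (n : ℝ) ^ 2)

lemma chi_sq (n : ℤ) : chi n * chi n = 1 := by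
  unfold chi
  rcases Int.even_or_odd n with h | h
  · rw [h.neg_one_zpow]; norm_num
  · rw [h.neg_one_zpow]; norm_num

lemma chi_eq (n : ℤ) : chi n = 1 ∨ chi n = -1 := by
  unfold chi
  rcases Int.even_or_odd n with h | h
  · rw [h.neg_one_zpow]; norm_num
  · rw [h.neg_one_zpow]; norm_num

lemma abs_chi (n : ℤ) : |chi n| = 1 := by
  rcases chi_eq n with h | h <;> rw [h] <;> norm_num

lemma chi_add (a b : ℤ) : chi (a + b) = chi a * chi b := by
  unfold chi
  rw [zpow_add₀ (by norm_num)]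

lemma chi_neg (a : ℤ) : chi (-a) = chi a := by
  rcases chi_eq a with h | h
  all_goals
    have h1 : chi (-a) * chi a = 1 := by
      rw [← chi_add]; simp [chi]
    rw [h] at h1 ⊢
    linarith

lemma chi_mul (a b : ℤ) :
    chi (a * b) = (1 / 2) * (1 + chi a + chi b - chi a * chi b) := by
  unfold chi
  rcases Int.even_or_odd a with h | h <;> rcases Int.even_or_odd b with h' | h'
  · rw [(h.mul_right b).neg_one_zpow, h.neg_one_zpow, h'.neg_one_zpow]; norm_num
  · rw [(h.mul_right b).neg_one_zpow, h.neg_one_zpow, h'.neg_one_zpow]; norm_num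
  · rw [(h'.mul_left a).neg_one_zpow, h.neg_one_zpow, h'.neg_one_zpow]; norm_num
  · rw [(h.mul h').neg_one_zpow, h.neg_one_zpow, h'.neg_one_zpow]; norm_num

lemma q_neg (n : ℤ) : q (-n) = q n := by
  unfold q; push_cast; rw [neg_sq]

lemma q_pos (n : ℤ) : 0 < q n := Real.exp_pos _

/-- the one-dimensional moment with character -/
def M (a m : ℕ) : ℝ := ∑' n : ℤ, (n : ℝ) ^ a * chi n ^ m * q n

lemma summable_abs (a : ℕ) : Summable fun n : ℤ => |(n : ℝ)| ^ a * q n := by
  have h := summable_pow_mul_jacobiTheta₂_term_bound 0 (T := 1 / 2) (by norm_num) a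
  refine h.congr fun n => ?_
  unfold q
  push_cast
  congr 2
  ring

lemma summable_term (a m : ℕ) : Summable fun n : ℤ => (n : ℝ) ^ a * chi n ^ m * q n := by
  refine Summable.of_norm_bounded (summable_abs a) fun n => ?_
  rw [norm_mul, norm_mul, norm_pow, norm_pow, Real.norm_eq_abs, Real.norm_eq_abs,
    Real.norm_eq_abs, abs_chi, one_pow, mul_one, abs_of_pos (q_pos n)]

lemma M_one (m : ℕ) : M 1 m = 0 := by
  have h : M 1 m = - M 1 m := by
    conv_lhs => unfold M
    rw [← (Equiv.neg ℤ).tsum_eq]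
    unfold M
    rw [← tsum_neg]
    congr 1
    funext n
    simp only [Equiv.neg_apply, chi_neg, q_neg]
    push_cast
    ring
  linarith

lemma G0_pos : 0 < M 0 0 := by
  unfold M
  refine (summable_term 0 0).tsum_pos (fun n => ?_) 0 ?_
  · simp only [pow_zero, one_mul]; exact (q_pos n).le
  · simp only [pow_zero, one_mul]; exact q_pos 0

/-- half the sum of the two theta constants is the sum over the even integers -/
lemma even_sum : (M 0 0 + M 0 1) / 2 = ∑' n : ℤ, Real.exp (-Real.pi / (1 / 2) * (n : ℝ) ^ 2) := by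
  have h1 : (M 0 0 + M 0 1) / 2 = ∑' n : ℤ, (1 / 2) * (1 + chi n) * q n := by
    unfold M
    rw [← (summable_term 0 0).tsum_add (summable_term 0 1), ← tsum_div_const]
    congr 1
    funext n
    simp only [pow_zero, pow_one, one_mul]
    ring
  rw [h1]
  have hinj : Function.Injective (fun n : ℤ => 2 * n) := fun a b h => by
    simpa using h
  rw [← hinj.tsum_eq]
  · congr 1
    funext n
    have : chi (2 * n) = 1 := by
      unfold chi; exact (even_two_mul n).neg_one_zpow
    rw [this]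
    unfold q
    push_cast
    norm_num
    ring
  · intro n hn
    rcases Int.even_or_odd n with h | h
    · obtain ⟨m, hm⟩ := h
      exact ⟨m, by simp only; omega⟩
    · exfalso
      apply hn
      have : chi n = -1 := by unfold chi; exact h.neg_one_zpow
      show (1 / 2) * (1 + chi n) * q n = 0
      rw [this]; ring

/-- Jacobi's inversion formula at the point used here -/
lemma jacobi : (M 0 0) ^ 2 = 2 * ((M 0 0 + M 0 1) / 2) ^ 2 := by
  have h := Real.tsum_exp_neg_mul_int_sq (a := 1 / 2) (by norm_num)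
  rw [← even_sum] at h
  have h0 : M 0 0 = ∑' n : ℤ, Real.exp (-Real.pi * (1 / 2) * (n : ℝ) ^ 2) := by
    unfold M q
    congr 1
    funext n
    simp only [pow_zero, one_mul]
    congr 1
    ring
  rw [← h0] at h
  have h2 : ((1 : ℝ) / (1 / 2) ^ (1 / 2 : ℝ)) ^ 2 = 2 := by
    rw [div_pow, one_pow, ← Real.rpow_natCast, ← Real.rpow_mul (by norm_num)]
    norm_num
  calc (M 0 0) ^ 2 = ((1 : ℝ) / (1 / 2) ^ (1 / 2 : ℝ) * ((M 0 0 + M 0 1) / 2)) ^ 2 := by rw [← h]
    _ = 2 * ((M 0 0 + M 0 1) / 2) ^ 2 := by rw [mul_pow, h2]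

lemma relation : (M 0 0) ^ 2 - 2 * M 0 0 * M 0 1 - (M 0 1) ^ 2 = 0 := by
  have := jacobi
  nlinarith [this]

lemma G1_pos : 0 < M 0 1 := by
  have h := even_sum
  -- `G₀ = √2 (G₀ + G₁)/2`
  have hr := relation
  have hpos := G0_pos
  have hE : 0 < (M 0 0 + M 0 1) / 2 := by
    rw [h]
    have hs : Summable fun n : ℤ => Real.exp (-Real.pi / (1 / 2) * (n : ℝ) ^ 2) := by
      have h := summable_pow_mul_jacobiTheta₂_term_bound 0 (T := 2) (by norm_num) 0
      refine h.congr fun n => ?_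
      rw [pow_zero, one_mul]
      congr 1
      ring
    exact hs.tsum_pos (fun n => (Real.exp_pos _).le) 0 (Real.exp_pos _)
  by_contra hcon
  push Not at hcon
  nlinarith [mul_nonneg hpos.le (neg_nonneg.mpr hcon)]

/-- sums of products over `Fin g → ℤ` -/
lemma hasSum_pi (g : ℕ) (f : Fin g → ℤ → ℝ) (hf : ∀ i, Summable (f i)) :
    HasSum (fun n : Fin g → ℤ => ∏ i, f i (n i)) (∏ i, ∑' m, f i m) := by
  induction g with
  | zero =>
    simp only [Finset.univ_eq_empty, Finset.prod_empty]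
    exact hasSum_unique _
  | succ g ih =>
    have h1 := ih (fun i => f i.succ) (fun i => hf i.succ)
    have h0 := (hf 0).hasSum
    have hs : Summable fun x : ℤ × (Fin g → ℤ) => f 0 x.1 * ∏ i, f (Fin.succ i) (x.2 i) :=
      summable_mul_of_summable_norm (f := f 0)
        (g := fun n : Fin g → ℤ => ∏ i, f (Fin.succ i) (n i)) (hf 0).norm h1.summable.norm
    have h2 : HasSum (fun x : ℤ × (Fin g → ℤ) => f 0 x.1 * ∏ i, f (Fin.succ i) (x.2 i))
      ((∑' m, f 0 m) * ∏ i : Fin g, ∑' m, f i.succ m) :=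
        HasSum.mul (f := f 0) (g := fun n : Fin g → ℤ => ∏ i, f (Fin.succ i) (n i)) h0 h1 hs
    rw [Fin.prod_univ_succ]
    let e : ℤ × (Fin g → ℤ) ≃ (Fin (g + 1) → ℤ) := Fin.consEquiv (fun _ : Fin (g + 1) => ℤ)
    have he : (fun n : Fin (g + 1) → ℤ => ∏ i, f i (n i)) ∘ e =
        fun x : ℤ × (Fin g → ℤ) => f 0 x.1 * ∏ i, f (Fin.succ i) (x.2 i) := by
      funext x
      simp [e, Fin.consEquiv, Fin.prod_univ_succ]
    rw [← e.hasSum_iff, he]
    exact h2

lemma hasSum_of_eq {ι : Type*} {f g : ι → ℝ} {s : ℝ} (h : HasSum g s)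
    (hfg : ∀ i, f i = g i) : HasSum f s := by
  have : f = g := funext hfg
  rw [this]; exact h

/-- Sums over `ℤ^(k+4)` of a monomial times a character polynomial in the parities of the first
four coordinates times the Gaussian weight. -/
lemma key (k : ℕ) (α : Fin (k + 4) → ℕ) (c : Fin 2 → Fin 2 → Fin 2 → Fin 2 → ℝ) :
    HasSum (fun n : Fin (k + 4) → ℤ => (∏ i, (n i : ℝ) ^ α i) *
      (∑ a, ∑ b, ∑ d, ∑ e, c a b d e * (chi (n 0) ^ (a : ℕ) * chi (n 1) ^ (b : ℕ) *
        chi (n 2) ^ (d : ℕ) * chi (n 3) ^ (e : ℕ))) * ∏ i, q (n i))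
      (∑ a : Fin 2, ∑ b : Fin 2, ∑ d : Fin 2, ∑ e : Fin 2,
        c a b d e * (M (α 0) a * M (α 1) b * M (α 2) d * M (α 3) e *
          ∏ j : Fin k, M (α j.succ.succ.succ.succ) 0)) := by
  have h1 : ∀ a b d e : Fin 2, HasSum (fun n : Fin (k + 4) → ℤ =>
      c a b d e * ((∏ i, (n i : ℝ) ^ α i) * (chi (n 0) ^ (a : ℕ) * chi (n 1) ^ (b : ℕ) *
        chi (n 2) ^ (d : ℕ) * chi (n 3) ^ (e : ℕ)) * ∏ i, q (n i)))
      (c a b d e * (M (α 0) a * M (α 1) b * M (α 2) d * M (α 3) e *
          ∏ j : Fin k, M (α j.succ.succ.succ.succ) 0)) := by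
    intro a b d e
    refine HasSum.mul_left _ ?_
    let m : Fin (k + 4) → ℕ := Fin.cons (a : ℕ) (Fin.cons (b : ℕ) (Fin.cons (d : ℕ)
      (Fin.cons (e : ℕ) (fun _ => 0))))
    have h := hasSum_pi (k + 4) (fun i n => (n : ℝ) ^ α i * chi n ^ m i * q n)
      (fun i => summable_term (α i) (m i))
    have hm0 : m 0 = a := rfl
    have hm1 : m 1 = b := rfl
    have hm2 : m 2 = d := rfl
    have hm3 : m 3 = e := rfl
    have hmj : ∀ j : Fin k, m j.succ.succ.succ.succ = 0 := fun j => rfl
    have hv : (∏ i, ∑' n : ℤ, (n : ℝ) ^ α i * chi n ^ m i * q n) =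
        M (α 0) a * M (α 1) b * M (α 2) d * M (α 3) e *
          ∏ j : Fin k, M (α j.succ.succ.succ.succ) 0 := by
      change (∏ i, M (α i) (m i)) = _
      rw [Fin.prod_univ_succ, Fin.prod_univ_succ, Fin.prod_univ_succ, Fin.prod_univ_succ]
      simp only [hmj]
      change M (α 0) a * (M (α 1) b * (M (α 2) d * (M (α 3) e * _))) = _
      ring
    rw [hv] at h
    refine hasSum_of_eq h fun n => ?_
    rw [Finset.prod_mul_distrib, Finset.prod_mul_distrib]
    congr 2
    rw [Fin.prod_univ_succ, Fin.prod_univ_succ, Fin.prod_univ_succ, Fin.prod_univ_succ]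
    simp only [hmj, pow_zero, Finset.prod_const_one, mul_one]
    change _ = chi (n 0) ^ (a : ℕ) * (chi (n 1) ^ (b : ℕ) * (chi (n 2) ^ (d : ℕ) *
      chi (n 3) ^ (e : ℕ)))
    ring
  have h2 := hasSum_sum (s := Finset.univ) fun a _ => hasSum_sum (s := Finset.univ) fun b _ =>
    hasSum_sum (s := Finset.univ) fun d _ => hasSum_sum (s := Finset.univ) fun e _ => h1 a b d e
  refine hasSum_of_eq h2 fun n => ?_
  simp only [Finset.mul_sum, Finset.sum_mul]
  refine Finset.sum_congr rfl fun a _ => Finset.sum_congr rfl fun b _ =>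
    Finset.sum_congr rfl fun d _ => Finset.sum_congr rfl fun e _ => ?_
  ring

end

end Pool.Agent.Helper80DiscGauss
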