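import Mathlib

/-!
Definitions for complex discrete Gaussians on `ℤ^g` (Siegel space, theta function, weights, moments),
in the normalisation `e(x) = exp(2πx)`.
-/

open scoped BigOperators

namespace Pool.Agent.Helper80DiscGauss

noncomputable section

/-- `B ∈ ℍ_g`: a symmetric complex `g × g` matrix whose real part is positive definite. -/
def InSiegelSpace {g : ℕ} (B : Matrix (Fin g) (Fin g) ℂ) : Prop :=
  B.IsSymm ∧ (B.map Complex.re).PosDef

/-- The summand `e(-½ nᵗBn + nᵗu)` of the theta series, where `e(x) = exp(2πx)`. -/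
def thetaTerm {g : ℕ} (u : Fin g → ℂ) (B : Matrix (Fin g) (Fin g) ℂ) (n : Fin g → ℤ) : ℂ :=
  Complex.exp (2 * (Real.pi : ℂ) *
    (-(1 / 2) * (∑ i, ∑ j, (n i : ℂ) * B i j * (n j : ℂ)) + ∑ i, (n i : ℂ) * u i))

/-- The Riemann theta function `θ(u,B) = ∑_{n ∈ ℤ^g} e(-½ nᵗBn + nᵗu)`. -/
def theta {g : ℕ} (u : Fin g → ℂ) (B : Matrix (Fin g) (Fin g) ℂ) : ℂ :=
  ∑' n : Fin g → ℤ, thetaTerm u B n

/-- The weight function `p(n;u,B)` of the complex discrete Gaussian `X_(u,B)`. -/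
def weight {g : ℕ} (u : Fin g → ℂ) (B : Matrix (Fin g) (Fin g) ℂ) (n : Fin g → ℤ) : ℂ :=
  1 / theta u B * thetaTerm u B n

/-- The moment `m_α(u,B) = ∑_{n ∈ ℤ^g} n^α p(n;u,B)`. -/
def moment {g : ℕ} (u : Fin g → ℂ) (B : Matrix (Fin g) (Fin g) ℂ) (α : Fin g → ℕ) : ℂ :=
  ∑' n : Fin g → ℤ, (∏ i, (n i : ℂ) ^ α i) * weight u B n

end

end Pool.Agent.Helper80DiscGauss
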