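import Mathlib
import Pool.Agent.Helper80_DiscGauss.Basic
import Pool.Agent.Helper80_DiscGauss.Defs

/-!
Proof of the failure of third-moment identifiability of complex discrete Gaussians in every
dimension `g ≥ 4`.
-/

open scoped BigOperators

namespace Pool.Agent.Helper80DiscGauss

noncomputable section

/-- the indicator of the first four coordinates -/
def ind {k : ℕ} (i : Fin (k + 4)) : ℂ := if i.val < 4 then 1 else 0

/-- the parameter of the counterexample -/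
def Bmat (k : ℕ) : Matrix (Fin (k + 4)) (Fin (k + 4)) ℂ := fun i j =>
  (if i = j then 1 / 2 - (Complex.I / 2) * ind i else 0) + (Complex.I / 2) * (ind i * ind j)

/-- the argument `(i/2) e_a` -/
def uvec {k : ℕ} (a : Fin (k + 4)) : Fin (k + 4) → ℂ := Pi.single a (Complex.I / 2)

lemma Bmat_mem (k : ℕ) : InSiegelSpace (Bmat k) := by
  refine ⟨?_, ?_⟩
  · ext i j
    simp only [Matrix.transpose_apply, Bmat]
    by_cases h : i = j
    · subst h; rfl
    · rw [if_neg h, if_neg (fun h' => h h'.symm)]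
      ring
  · have : (Bmat k).map Complex.re = (1 / 2 : ℝ) • (1 : Matrix (Fin (k + 4)) (Fin (k + 4)) ℝ) := by
      ext i j
      simp only [Matrix.map_apply, Matrix.smul_apply, Bmat, Matrix.one_apply]
      have hre : ∀ i j : Fin (k + 4), (Complex.I / 2 * (ind i * ind j)).re = 0 := by
        intro i j
        unfold ind
        split_ifs <;> simp
      by_cases h : i = j
      · subst h
        rw [if_pos rfl, if_pos rfl, Complex.add_re, hre]
        unfold ind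
        split_ifs <;> simp
      · rw [if_neg h, if_neg h, Complex.add_re, hre]
        simp
    rw [this]
    exact Matrix.PosDef.one.smul (by norm_num)

/-- elementary symmetric polynomial of the first four coordinates -/
def e2 {k : ℕ} (n : Fin (k + 4) → ℤ) : ℤ :=
  n 0 * n 1 + n 2 * n 3 + (n 0 + n 1) * (n 2 + n 3)

lemma sum_ind {k : ℕ} (f : Fin (k + 4) → ℂ) : ∑ i, f i * ind i = f 0 + f 1 + f 2 + f 3 := by
  rw [Fin.sum_univ_succ, Fin.sum_univ_succ, Fin.sum_univ_succ, Fin.sum_univ_succ]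
  have h0 : ∀ j : Fin k, (ind (j.succ.succ.succ.succ) : ℂ) = 0 := by
    intro j; unfold ind; rw [if_neg]; simp
  simp only [h0, mul_zero, Finset.sum_const_zero, add_zero]
  change f 0 * ind 0 + (f 1 * ind 1 + (f 2 * ind 2 + f 3 * ind 3)) = _
  have h1 : ∀ j : Fin (k + 4), j.val < 4 → (ind j : ℂ) = 1 := by
    intro j hj; unfold ind; rw [if_pos hj]
  rw [h1 0 (by simp), h1 1 (by simp), h1 2 (by
    change (2 : ℕ) % (k + 4) < 4
    exact lt_of_le_of_lt (Nat.mod_le _ _) (by norm_num)), h1 3 (by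
    change (3 : ℕ) % (k + 4) < 4
    exact lt_of_le_of_lt (Nat.mod_le _ _) (by norm_num))]
  ring

lemma quad {k : ℕ} (n : Fin (k + 4) → ℤ) :
    ∑ i, ∑ j, (n i : ℂ) * Bmat k i j * (n j : ℂ) =
      (1 / 2) * (∑ i, (n i : ℂ) ^ 2) + Complex.I * (e2 n : ℂ) := by
  have h1 : ∀ i j : Fin (k + 4), (n i : ℂ) * Bmat k i j * (n j : ℂ) =
      (if i = j then (1 / 2) * (n i : ℂ) ^ 2 - (Complex.I / 2) * ((n i : ℂ) ^ 2 * ind i) else 0) +
        (Complex.I / 2) * (((n i : ℂ) * ind i) * ((n j : ℂ) * ind j)) := by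
    intro i j
    unfold Bmat
    by_cases h : i = j
    · subst h
      rw [if_pos rfl, if_pos rfl]
      ring
    · rw [if_neg h, if_neg h]
      ring
  simp only [h1, Finset.sum_add_distrib, Finset.sum_ite_eq, Finset.mem_univ, if_true,
    Finset.sum_sub_distrib, ← Finset.mul_sum, ← Finset.sum_mul, sum_ind]
  unfold e2
  push_cast
  ring

lemma exp_pi_int (m : ℤ) : Complex.exp ((m : ℂ) * ((Real.pi : ℂ) * Complex.I)) = ((chi m : ℝ) : ℂ) := by
  rw [Complex.exp_int_mul, Complex.exp_pi_mul_I]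
  unfold chi
  push_cast
  rfl

lemma term_eq {k : ℕ} (a : Fin (k + 4)) (n : Fin (k + 4) → ℤ) :
    thetaTerm (uvec a) (Bmat k) n = ((chi (n a - e2 n) * ∏ i, q (n i) : ℝ) : ℂ) := by
  unfold thetaTerm
  rw [quad]
  have hu : ∑ i, (n i : ℂ) * uvec a i = (n a : ℂ) * (Complex.I / 2) := by
    unfold uvec
    rw [Finset.sum_eq_single a]
    · rw [Pi.single_eq_same]
    · intro b _ hb
      rw [Pi.single_eq_of_ne hb, mul_zero]
    · intro h; exact absurd (Finset.mem_univ a) h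
  rw [hu]
  have hexp : 2 * (Real.pi : ℂ) * (-(1 / 2) * (1 / 2 * ∑ i, (n i : ℂ) ^ 2 + Complex.I * (e2 n : ℂ)) +
      (n a : ℂ) * (Complex.I / 2)) =
      ((n a - e2 n : ℤ) : ℂ) * ((Real.pi : ℂ) * Complex.I) +
        ∑ i, (((-(Real.pi / 2) * (n i : ℝ) ^ 2 : ℝ)) : ℂ) := by
    push_cast
    rw [← Finset.mul_sum]
    ring
  rw [hexp, Complex.exp_add, exp_pi_int, Complex.exp_sum]
  push_cast
  congr 1
  refine Finset.prod_congr rfl fun i _ => ?_
  unfold q
  push_cast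
  rfl

/-- the weights of the character expansion of `(-1)^(e₂)` -/
def coef (a b d e : Fin 2) : ℝ :=
  (1 / 4) * (if (a : ℕ) + b + d + e = 0 then -1 else
    if (a : ℕ) + b + d + e = 1 then 1 else
    if (a : ℕ) + b + d + e = 2 then 1 else -1)

lemma chi_e2 {k : ℕ} (n : Fin (k + 4) → ℤ) : chi (e2 n) =
    ∑ a : Fin 2, ∑ b : Fin 2, ∑ d : Fin 2, ∑ e : Fin 2, coef a b d e *
      (chi (n 0) ^ (a : ℕ) * chi (n 1) ^ (b : ℕ) * chi (n 2) ^ (d : ℕ) * chi (n 3) ^ (e : ℕ)) := by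
  have h0 := chi_eq (n 0)
  have h1 := chi_eq (n 1)
  have h2 := chi_eq (n 2)
  have h3 := chi_eq (n 3)
  unfold e2
  rw [chi_add, chi_add, chi_mul (n 0), chi_mul (n 2), chi_mul (n 0 + n 1), chi_add, chi_add]
  simp only [Fin.sum_univ_two, coef, Fin.val_zero, Fin.val_one]
  rcases h0 with h0 | h0 <;> rcases h1 with h1 | h1 <;> rcases h2 with h2 | h2 <;>
    rcases h3 with h3 | h3 <;> rw [h0, h1, h2, h3] <;> norm_num

lemma chi_sub (a b : ℤ) : chi (a - b) = chi a * chi b := by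
  rw [sub_eq_add_neg, chi_add, chi_neg]

lemma chi_zero_expansion {k : ℕ} (n : Fin (k + 4) → ℤ) : chi (n 0 - e2 n) =
    ∑ a : Fin 2, ∑ b : Fin 2, ∑ d : Fin 2, ∑ e : Fin 2, coef (a + 1) b d e *
      (chi (n 0) ^ (a : ℕ) * chi (n 1) ^ (b : ℕ) * chi (n 2) ^ (d : ℕ) * chi (n 3) ^ (e : ℕ)) := by
  have h0 := chi_eq (n 0)
  rw [chi_sub, chi_e2]
  simp only [Fin.sum_univ_two, coef, Fin.val_zero, Fin.val_one, zero_add,
    show (1 : Fin 2) + 1 = 0 from rfl]
  rcases h0 with h0 | h0 <;> rw [h0] <;> norm_num <;> ring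

lemma chi_one_expansion {k : ℕ} (n : Fin (k + 4) → ℤ) : chi (n 1 - e2 n) =
    ∑ a : Fin 2, ∑ b : Fin 2, ∑ d : Fin 2, ∑ e : Fin 2, coef a (b + 1) d e *
      (chi (n 0) ^ (a : ℕ) * chi (n 1) ^ (b : ℕ) * chi (n 2) ^ (d : ℕ) * chi (n 3) ^ (e : ℕ)) := by
  have h0 := chi_eq (n 1)
  rw [chi_sub, chi_e2]
  simp only [Fin.sum_univ_two, coef, Fin.val_zero, Fin.val_one, zero_add,
    show (1 : Fin 2) + 1 = 0 from rfl]
  rcases h0 with h0 | h0 <;> rw [h0] <;> norm_num <;> ring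

/-- the value of the moment sums for a character polynomial -/
def S (k : ℕ) (α : Fin (k + 4) → ℕ) (c : Fin 2 → Fin 2 → Fin 2 → Fin 2 → ℝ) : ℝ :=
  ∑ a : Fin 2, ∑ b : Fin 2, ∑ d : Fin 2, ∑ e : Fin 2,
        c a b d e * (M (α 0) a * M (α 1) b * M (α 2) d * M (α 3) e *
          ∏ j : Fin k, M (α j.succ.succ.succ.succ) 0)

lemma hasSum0 (k : ℕ) (α : Fin (k + 4) → ℕ) :
    HasSum (fun n : Fin (k + 4) → ℤ => (∏ i, (n i : ℝ) ^ α i) * (chi (n 0 - e2 n) * ∏ i, q (n i)))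
      (S k α (fun a b d e => coef (a + 1) b d e)) := by
  refine hasSum_of_eq (key k α (fun a b d e => coef (a + 1) b d e)) fun n => ?_
  rw [chi_zero_expansion, mul_assoc]

lemma hasSum1 (k : ℕ) (α : Fin (k + 4) → ℕ) :
    HasSum (fun n : Fin (k + 4) → ℤ => (∏ i, (n i : ℝ) ^ α i) * (chi (n 1 - e2 n) * ∏ i, q (n i)))
      (S k α (fun a b d e => coef a (b + 1) d e)) := by
  refine hasSum_of_eq (key k α (fun a b d e => coef a (b + 1) d e)) fun n => ?_
  rw [chi_one_expansion, mul_assoc]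

lemma S_sub (k : ℕ) (α : Fin (k + 4) → ℕ) :
    S k α (fun a b d e => coef (a + 1) b d e) - S k α (fun a b d e => coef a (b + 1) d e) =
      (1 / 2) * (M (α 0) 1 * M (α 1) 0 - M (α 0) 0 * M (α 1) 1) *
        (M (α 2) 1 * M (α 3) 1 + M (α 2) 0 * M (α 3) 1 + M (α 2) 1 * M (α 3) 0
          - M (α 2) 0 * M (α 3) 0) * ∏ j : Fin k, M (α j.succ.succ.succ.succ) 0 := by
  unfold S
  simp only [Fin.sum_univ_two, coef, Fin.val_zero, Fin.val_one, zero_add,
    show (1 : Fin 2) + 1 = 0 from rfl]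
  norm_num
  ring

lemma S_eq (k : ℕ) (α : Fin (k + 4) → ℕ) (hα : ∑ i, α i ≤ 3) :
    S k α (fun a b d e => coef (a + 1) b d e) = S k α (fun a b d e => coef a (b + 1) d e) := by
  rw [← sub_eq_zero, S_sub]
  have hsum : α 0 + α 1 + α 2 + α 3 ≤ 3 := by
    rw [Fin.sum_univ_succ, Fin.sum_univ_succ, Fin.sum_univ_succ, Fin.sum_univ_succ] at hα
    change α 0 + (α 1 + (α 2 + (α 3 + _))) ≤ 3 at hα
    omega
  by_cases h01 : α 0 + α 1 ≤ 1
  · have hfac : M (α 0) 1 * M (α 1) 0 - M (α 0) 0 * M (α 1) 1 = 0 := by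
      rcases Nat.eq_zero_or_pos (α 0) with h0 | h0
      · rcases Nat.eq_zero_or_pos (α 1) with h1 | h1
        · rw [h0, h1]; ring
        · have : α 1 = 1 := by omega
          rw [this, M_one, M_one]; ring
      · have : α 0 = 1 := by omega
        rw [this, M_one, M_one]; ring
    rw [hfac]; ring
  · have h23 : α 2 + α 3 ≤ 1 := by omega
    have hfac : M (α 2) 1 * M (α 3) 1 + M (α 2) 0 * M (α 3) 1 + M (α 2) 1 * M (α 3) 0
          - M (α 2) 0 * M (α 3) 0 = 0 := by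
      rcases Nat.eq_zero_or_pos (α 2) with h0 | h0
      · rcases Nat.eq_zero_or_pos (α 3) with h1 | h1
        · rw [h0, h1]; linarith [relation]
        · have : α 3 = 1 := by omega
          rw [this, M_one, M_one]; ring
      · have : α 2 = 1 := by omega
        rw [this, M_one, M_one]; ring
    rw [hfac]; ring

lemma S_zero_pos (k : ℕ) : 0 < S k (fun _ => 0) (fun a b d e => coef (a + 1) b d e) := by
  have h : S k (fun _ => 0) (fun a b d e => coef (a + 1) b d e) =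
      ((1 / 2) * (M 0 0 ^ 2 + M 0 1 ^ 2)) * ((1 / 2) * (M 0 0 ^ 2 + 2 * M 0 0 * M 0 1 - M 0 1 ^ 2)) *
        M 0 0 ^ k := by
    unfold S
    simp only [Fin.sum_univ_two, coef, Fin.val_zero, Fin.val_one, zero_add,
      show (1 : Fin 2) + 1 = 0 from rfl, Finset.prod_const, Finset.card_univ, Fintype.card_fin]
    norm_num
    ring
  rw [h]
  have h0 := G0_pos
  have h1 := G1_pos
  have hr := relation
  have h2 : 0 < (1 / 2) * (M 0 0 ^ 2 + 2 * M 0 0 * M 0 1 - M 0 1 ^ 2) := by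
    nlinarith [mul_pos h0 h1]
  have h3 : 0 < M 0 0 ^ k := pow_pos h0 k
  positivity

lemma sum_eq {k : ℕ} (a : Fin (k + 4)) (α : Fin (k + 4) → ℕ) :
    ∑' n : Fin (k + 4) → ℤ, (∏ i, (n i : ℂ) ^ α i) * thetaTerm (uvec a) (Bmat k) n =
      ((∑' n : Fin (k + 4) → ℤ, (∏ i, (n i : ℝ) ^ α i) * (chi (n a - e2 n) * ∏ i, q (n i)) : ℝ) : ℂ) := by
  rw [Complex.ofReal_tsum]
  congr 1
  funext n
  rw [term_eq]
  push_cast
  rfl

lemma theta_eq {k : ℕ} (a : Fin (k + 4)) :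
    theta (uvec a) (Bmat k) =
      ((∑' n : Fin (k + 4) → ℤ, (∏ i, (n i : ℝ) ^ (0 : ℕ)) * (chi (n a - e2 n) * ∏ i, q (n i)) : ℝ) : ℂ) := by
  rw [← sum_eq a (fun _ => 0)]
  unfold theta
  simp

lemma moment_eq {k : ℕ} (a : Fin (k + 4)) (α : Fin (k + 4) → ℕ) :
    moment (uvec a) (Bmat k) α = 1 / theta (uvec a) (Bmat k) *
      ((∑' n : Fin (k + 4) → ℤ, (∏ i, (n i : ℝ) ^ α i) * (chi (n a - e2 n) * ∏ i, q (n i)) : ℝ) : ℂ) := by
  rw [← sum_eq]
  unfold moment weight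
  rw [← tsum_mul_left]
  congr 1
  funext n
  ring

lemma theta_zero {k : ℕ} : theta (uvec (k := k) 0) (Bmat k) =
    ((S k (fun _ => 0) (fun a b d e => coef (a + 1) b d e) : ℝ) : ℂ) := by
  rw [theta_eq, (hasSum0 k (fun _ => 0)).tsum_eq]

lemma theta_one {k : ℕ} : theta (uvec (k := k) 1) (Bmat k) =
    ((S k (fun _ => 0) (fun a b d e => coef (a + 1) b d e) : ℝ) : ℂ) := by
  rw [theta_eq, (hasSum1 k (fun _ => 0)).tsum_eq, S_eq k (fun _ => 0) (by simp)]

/-- the main theorem -/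
theorem main : ∀ g : ℕ, 4 ≤ g →
    ∃ B : Matrix (Fin g) (Fin g) ℂ, InSiegelSpace B ∧
      ∃ u u' : Fin g → ℂ, theta u B ≠ 0 ∧ theta u' B ≠ 0 ∧
        (∀ α : Fin g → ℕ, ∑ i, α i ≤ 3 → moment u B α = moment u' B α) ∧
        ∃ n : Fin g → ℤ, weight u B n ≠ weight u' B n := by
  intro g hg
  obtain ⟨k, rfl⟩ : ∃ k, g = k + 4 := ⟨g - 4, by omega⟩
  have hpos := S_zero_pos k
  have hne : ((S k (fun _ => 0) (fun a b d e => coef (a + 1) b d e) : ℝ) : ℂ) ≠ 0 := by
    exact_mod_cast hpos.ne'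
  refine ⟨Bmat k, Bmat_mem k, uvec 0, uvec 1, ?_, ?_, ?_, ?_⟩
  · rw [theta_zero]; exact hne
  · rw [theta_one]; exact hne
  · intro α hα
    rw [moment_eq, moment_eq, theta_zero, theta_one, (hasSum0 k α).tsum_eq, (hasSum1 k α).tsum_eq,
      S_eq k α hα]
  · refine ⟨Pi.single 0 1, ?_⟩
    unfold weight
    rw [theta_zero, theta_one]
    intro h
    have h' := mul_left_cancel₀ (one_div_ne_zero hne) h
    rw [term_eq, term_eq] at h'
    have h2 := Complex.ofReal_injective h'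
    have hq : (∏ i : Fin (k + 4), q ((Pi.single 0 1 : Fin (k + 4) → ℤ) i)) ≠ 0 :=
      Finset.prod_ne_zero_iff.mpr fun i _ => (q_pos _).ne'
    have h3 := mul_right_cancel₀ hq h2
    have e0 : (Pi.single 0 1 : Fin (k + 4) → ℤ) 0 = 1 := Pi.single_eq_same _ _
    have e1 : (Pi.single 0 1 : Fin (k + 4) → ℤ) 1 = 0 := Pi.single_eq_of_ne (by simp) _
    have ee2 : (Pi.single 0 1 : Fin (k + 4) → ℤ) 2 = 0 := Pi.single_eq_of_ne (by
      intro h
      have h4 : (2 : ℕ) % (k + 4) = 0 := by simpa using congrArg Fin.val h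
      rw [Nat.mod_eq_of_lt (by omega)] at h4
      omega) _
    have ee3 : (Pi.single 0 1 : Fin (k + 4) → ℤ) 3 = 0 := Pi.single_eq_of_ne (by
      intro h
      have h4 : (3 : ℕ) % (k + 4) = 0 := by simpa using congrArg Fin.val h
      rw [Nat.mod_eq_of_lt (by omega)] at h4
      omega) _
    unfold e2 at h3
    rw [e0, e1, ee2, ee3] at h3
    unfold chi at h3
    norm_num at h3


end

end Pool.Agent.Helper80DiscGauss
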